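import Pool.Agent.H22.GD4

/-! Game domination number is PSPACE-hard on split graphs. -/

namespace Pool.Agent.Results.MP_0061eb_lc.Hard

open Pool.Agent.H36.PSpace Pool.Agent.H22.GD

theorem result : PSPACEHardOn Split GameDom := gd_psh.hardOn

end Pool.Agent.Results.MP_0061eb_lc.Hard
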